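import Mathlib
import Pool.Agent.K7.H25.GD.Stm

set_option autoImplicit false

namespace Pool.Agent.K7.H55.GDWIND

open Pool.Agent.K7.H25.GD

/-- two disjoint windmills -/
def wm (n : ℕ) : SimpleGraph (Bool × Option (Fin n × Fin (n - 1))) where
  Adj p q := p.1 = q.1 ∧ p.2 ≠ q.2 ∧ ∀ x y, p.2 = some x → q.2 = some y → x.1 = y.1
  symm := ⟨fun _ _ h => ⟨h.1.symm, h.2.1.symm, fun x y hx hy => (h.2.2 y x hy hx).symm⟩⟩
  loopless := ⟨fun _ h => h.2.1 rfl⟩

theorem loose_wm (n : ℕ) : Loose (wm n) := by
  intro u v a b huv hnadj hua hva hub hvb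
  have key : ∀ a, (wm n).Adj u a → (wm n).Adj v a → a = (u.1, none) := by
    intro a hua hva
    obtain ⟨h1, h2, h3⟩ := hua
    obtain ⟨h4, h5, h6⟩ := hva
    have : a.2 = none := by
      by_contra hne
      obtain ⟨z, hz⟩ := Option.ne_none_iff_exists'.1 hne
      apply hnadj
      refine ⟨h1.trans h4.symm, ?_, ?_⟩
      · intro h
        exact huv (Prod.ext (h1.trans h4.symm) h)
      · intro x y hx hy
        exact (h3 x z hx hz).trans (h6 y z hy hz).symm
    exact Prod.ext h1.symm this
  rw [key a hua hva, key b hub hvb]

theorem line_max {W : Type} (G : SimpleGraph W) (hL : Loose G) (u z : W) (huz : G.Adj u z) :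
    MaxClique G (line G u z) := by
  constructor
  · intro a ha b hb hab
    rcases ha with ha | ha | ha
    · subst ha
      rcases hb with hb | hb | hb
      · exact absurd hb.symm hab
      · subst hb
        exact huz
      · exact hb.1
    · subst ha
      rcases hb with hb | hb | hb
      · subst hb
        exact huz.symm
      · exact absurd hb.symm hab
      · exact hb.2
    · rcases hb with hb | hb | hb
      · subst hb
        exact ha.1.symm
      · subst hb
        exact ha.2.symm
      · by_contra hn
        exact huz.ne (hL a b u z hab hn ha.1.symm hb.1.symm ha.2.symm hb.2.symm)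
  · intro x hx
    by_cases h1 : x = u
    · exact Or.inl h1
    by_cases h2 : x = z
    · exact Or.inr (Or.inl h2)
    · exact Or.inr (Or.inr ⟨(hx u (Or.inl rfl) h1).symm, (hx z (Or.inr (Or.inl rfl)) h2).symm⟩)

theorem t : StWind := by
  intro n hn
  refine ⟨Bool × Option (Fin n × Fin (n - 1)), inferInstance, wm n, loose_wm n, ?_⟩
  intro W _ G hG ⟨φ⟩
  have hadj : ∀ p q, G.Adj (φ p) (φ q) ↔ (wm n).Adj p q := fun p q => φ.map_adj_iff
  obtain ⟨j0⟩ : Nonempty (Fin (n - 1)) := ⟨⟨0, by omega⟩⟩
  obtain ⟨i0, i1, hi01⟩ : ∃ i0 i1 : Fin n, i0 ≠ i1 :=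
    ⟨⟨0, by omega⟩, ⟨1, by omega⟩, by simp⟩
  constructor
  · intro y
    by_contra hcon
    push Not at hcon
    have hb : ∃ b : Bool, ∀ s, φ (b, s) ≠ y := by
      by_contra hb
      push Not at hb
      obtain ⟨s, hs⟩ := hb true
      obtain ⟨s', hs'⟩ := hb false
      have := φ.injective (hs.trans hs'.symm)
      simp at this
    obtain ⟨b, hb⟩ := hb
    have h1 : φ (b, some (i0, j0)) ≠ φ (b, some (i1, j0)) := by
      intro h
      have := φ.injective h
      simp only [Prod.mk.injEq, Option.some.injEq, true_and, and_true] at this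
      exact hi01 this
    have h2 : ¬ G.Adj (φ (b, some (i0, j0))) (φ (b, some (i1, j0))) := by
      rw [hadj]
      rintro ⟨_, _, h⟩
      exact hi01 (h _ _ rfl rfl)
    have h3 : ∀ i, G.Adj (φ (b, some (i, j0))) (φ (b, none)) := by
      intro i
      rw [hadj]
      exact ⟨rfl, by simp, fun x y _ hy => by simp at hy⟩
    exact hb none (hG.1 _ _ _ _ h1 h2 (h3 i0) (h3 i1) (hcon _ (hb _)).symm (hcon _ (hb _)).symm)
  · refine ⟨φ (true, none), ?_⟩
    have hcw : ∀ i j, G.Adj (φ (true, none)) (φ (true, some (i, j))) := by
      intro i j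
      rw [hadj]
      exact ⟨rfl, by simp, fun x y hx _ => by simp at hx⟩
    obtain ⟨C, hC⟩ : ∃ C : Fin n → Set W, C = fun i => line G (φ (true, none)) (φ (true, some (i, j0))) :=
      ⟨_, rfl⟩
    have hmem : ∀ i, C i ∈ {C : Set W | MaxClique G C ∧ φ (true, none) ∈ C ∧ n ≤ C.ncard} := by
      intro i
      have hCi : C i = line G (φ (true, none)) (φ (true, some (i, j0))) := by rw [hC]
      refine ⟨by rw [hCi]; exact line_max G hG.1 _ _ (hcw i j0), by rw [hCi]; exact Or.inl rfl, ?_⟩
      obtain ⟨f, hf⟩ : ∃ f : Option (Fin (n - 1)) → W, f = fun o => φ (true, o.map fun j => (i, j)) :=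
        ⟨_, rfl⟩
      have hfi : Function.Injective f := by
        intro o o' h
        rw [hf] at h
        have h1 := φ.injective h
        simp only [Prod.mk.injEq, true_and] at h1
        refine Option.map_injective ?_ h1
        intro j j' h2
        exact (Prod.mk.inj h2).2
      have hsub : Set.range f ⊆ C i := by
        rintro _ ⟨o, rfl⟩
        rw [hf, hCi]
        cases o with
        | none => exact Or.inl rfl
        | some j =>
          by_cases hj : j = j0
          · subst hj
            exact Or.inr (Or.inl rfl)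
          · refine Or.inr (Or.inr ⟨hcw i j, ?_⟩)
            refine (hadj (true, some (i, j0)) (true, some (i, j))).2 ?_
            refine ⟨rfl, ?_, ?_⟩
            · intro h
              simp only [Option.some.injEq, Prod.mk.injEq, true_and] at h
              exact hj h.symm
            · intro x y hx hy
              simp only [Option.some.injEq] at hx hy
              rw [← hx, ← hy]
      calc n = (Set.range f).ncard := by
            rw [← Set.image_univ, Set.ncard_image_of_injective _ hfi, Set.ncard_univ,
              Nat.card_eq_fintype_card, Fintype.card_option, Fintype.card_fin]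
            omega
        _ ≤ (C i).ncard := Set.ncard_le_ncard hsub (Set.toFinite _)
    have hinj : Function.Injective C := by
      intro i i' h
      by_contra hne
      have h0 : line G (φ (true, none)) (φ (true, some (i, j0))) =
          line G (φ (true, none)) (φ (true, some (i', j0))) := by
        simpa only [hC] using h
      have h1 : φ (true, some (i', j0)) ∈ line G (φ (true, none)) (φ (true, some (i, j0))) := by
        rw [h0]
        exact Or.inr (Or.inl rfl)
      have h2 : φ (true, some (i, j0)) ∈ line G (φ (true, none)) (φ (true, some (i, j0))) :=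
        Or.inr (Or.inl rfl)
      have h3 := (line_max G hG.1 _ _ (hcw i j0)).1 h2 h1 (by
        intro h4
        have h5 := φ.injective h4
        simp only [Prod.mk.injEq, Option.some.injEq, true_and, and_true] at h5
        exact hne h5)
      rw [hadj] at h3
      exact hne (h3.2.2 _ _ rfl rfl)
    calc n = (Set.range C).ncard := by
          rw [← Set.image_univ, Set.ncard_image_of_injective _ hinj, Set.ncard_univ,
            Nat.card_eq_fintype_card, Fintype.card_fin]
      _ ≤ _ := Set.ncard_le_ncard (by rintro _ ⟨i, rfl⟩; exact hmem i) (Set.toFinite _)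

end Pool.Agent.K7.H55.GDWIND
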