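import Mathlib
import Pool.Agent.K7.H84.GG.Stm

set_option autoImplicit false

open Finset DC813

namespace Pool.Agent.K7.H55.GGMUNN

open Pool.Agent.K7.H84.GG

theorem t (hW : StWeis) : StMuNN := by
  intro α _ r E hr
  have key : ∀ n : ℕ, ∀ E : Finset α, r E = n → Lp r E → 0 ≤ mu r E := by
    intro n
    induction n using Nat.strong_induction_on with
    | _ n ih =>
      intro E hE hl
      rcases E.eq_empty_or_nonempty with rfl | ⟨p, hp⟩
      · unfold mu
        rw [hr.empty, pow_zero, one_mul]
        refine Finset.sum_nonneg fun X hX => ?_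
        rw [Finset.mem_filter, Finset.powerset_empty, Finset.mem_singleton] at hX
        rw [hX.1]
        simp
      · rw [← hW α r E p hr hp (hl p hp)]
        refine Finset.sum_nonneg fun H hH => ?_
        unfold hy fl at hH
        simp only [Finset.mem_filter, Finset.mem_powerset] at hH
        obtain ⟨⟨h1, -⟩, h2, -⟩ := hH
        exact ih (r H) (by omega) H rfl fun x hx => hl x (h1 hx)
  exact fun hl => key (r E) E rfl hl

end Pool.Agent.K7.H55.GGMUNN
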