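import Mathlib
import Pool.Agent.K7.H84.GG.Stm

set_option autoImplicit false

open Finset DC813

namespace Pool.Agent.K7.H55.GGTR

open Pool.Agent.K7.H84.GG

/-- if `L` lies in the closure of `X` then it lies in the closure of every larger set -/
theorem ind_mono {α : Type} [DecidableEq α] {r : Finset α → ℕ} (hr : IsRk r) {L X Z : Finset α}
    (hXZ : X ⊆ Z) (h : r (X ∪ L) = r X) : r (Z ∪ L) = r Z := by
  have h1 := hr.submod Z (X ∪ L)
  have h2 : Z ∪ (X ∪ L) = Z ∪ L := by
    rw [← Finset.union_assoc, Finset.union_eq_left.2 hXZ]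
  have h3 : r X ≤ r (Z ∩ (X ∪ L)) :=
    hr.mono _ _ (Finset.subset_inter hXZ Finset.subset_union_left)
  have h4 : r Z ≤ r (Z ∪ L) := hr.mono _ _ Finset.subset_union_left
  rw [h2] at h1
  omega

theorem t : StTR := by
  intro α _ r L hr hL
  have hle : ∀ A, r (A ∪ L) = r A → 1 ≤ r A := by
    intro A h
    have := hr.mono L (A ∪ L) Finset.subset_union_right
    omega
  have hge : ∀ A, r A ≤ r (A ∪ L) := fun A => hr.mono _ _ Finset.subset_union_left
  refine ⟨?_, ?_, ?_, ?_⟩
  · simp [tr, hr.empty]
  · intro X Y hXY
    have h1 := hr.mono X Y hXY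
    have h2 := hr.mono (X ∪ L) (Y ∪ L) (Finset.union_subset_union_left hXY)
    have h3 := hge X
    have h4 := hge Y
    unfold tr
    split_ifs <;> omega
  · intro X e
    have h1 := hr.insert_le X e
    have h2 := hr.insert_le (X ∪ L) e
    rw [← Finset.insert_union] at h2
    have h3 := hge X
    have h4 := hge (insert e X)
    have h5 := hle X
    have h6 := hr.mono X (insert e X) (Finset.subset_insert _ _)
    unfold tr
    split_ifs <;> omega
  · intro X Y
    have h1 := hr.submod X Y
    have h2 := hr.submod (X ∪ L) (Y ∪ L)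
    have e1 : (X ∪ L) ∪ (Y ∪ L) = (X ∪ Y) ∪ L := by
      ext a; simp only [Finset.mem_union]; tauto
    have e2 : (X ∪ L) ∩ (Y ∪ L) = (X ∩ Y) ∪ L := by
      ext a; simp only [Finset.mem_union, Finset.mem_inter]; tauto
    rw [e1, e2] at h2
    have h3 := hge (X ∪ Y)
    have h4 := hge (X ∩ Y)
    have h5 : r (X ∪ L) = r X → r ((X ∪ Y) ∪ L) = r (X ∪ Y) :=
      fun h => ind_mono hr Finset.subset_union_left h
    have h6 : r (Y ∪ L) = r Y → r ((X ∪ Y) ∪ L) = r (X ∪ Y) :=
      fun h => ind_mono hr Finset.subset_union_right h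
    have h7 := hle X
    have h8 := hle Y
    have h9 := hle (X ∪ Y)
    have h10 := hle (X ∩ Y)
    unfold tr
    by_cases a : r (X ∪ L) = r X
    · have a1 := h5 a
      have a2 := h7 a
      have a3 := h9 a1
      rw [if_pos a1, if_pos a]
      by_cases b : r (Y ∪ L) = r Y
      · have b2 := h8 b
        rw [if_pos b]
        split_ifs with c
        · have := h10 c; omega
        · omega
      · rw [if_neg b]
        split_ifs with c
        · have := h10 c; omega
        · omega
    · rw [if_neg a]
      by_cases b : r (Y ∪ L) = r Y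
      · have a1 := h6 b
        have b2 := h8 b
        have a3 := h9 a1
        rw [if_pos a1, if_pos b]
        split_ifs with c
        · have := h10 c; omega
        · omega
      · rw [if_neg b]
        split_ifs with c d d
        · have := h9 c; have := h10 d; omega
        · omega
        · omega
        · omega

end Pool.Agent.K7.H55.GGTR
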